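import Pool.Agent.U265.VH.Abs

/-!
# Few points of complex spaces near a point, outside a set of Hausdorff dimension zero (helper265)
-/

set_option autoImplicit false

namespace Pool.Agent.U265.VH

open Filter Set MeasureTheory
open scoped ENNReal NNReal

/-- **One set of dimension zero** for a countable family of sequences of sets with at most `Y ^ ε` elements. -/
theorem seq_law {X : Type} {A : Type*} [Fintype X] [Countable A] (B : A → ℕ → ℕ → Set (X → ℂ))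
    (hmono : ∀ (a : A) (b Y Y' : ℕ), 1 ≤ Y → Y ≤ Y' → B a (b + 1) Y ⊆ B a b Y')
    (hcount : ∀ (a : A) (ε : ℝ), 0 < ε → ∃ (b Y₀ : ℕ) (C : ℝ), 0 ≤ C ∧ ∀ Y : ℕ, Y₀ ≤ Y →
      (B a b Y).Finite ∧ ((B a b Y).ncard : ℝ) ≤ C * (Y : ℝ) ^ ε) :
    ∃ E : Set (X → ℂ), dimH E = 0 ∧ ∀ x : X → ℂ, x ∉ E → ∀ (a : A) (σ : ℝ), 0 < σ →
      ∃ b : ℕ, ∀ᶠ Y : ℕ in atTop, ∀ s ∈ B a b Y, ∃ j, (Y : ℝ) ^ (-σ) < ‖x j - s j‖ := by
  classical
  obtain ⟨E, hE⟩ : ∃ E : Set (X → ℂ), E = ⋃ (a : A) (l : ℕ), ExcB (fun b T => B a b ⌊T⌋₊) l := ⟨_, rfl⟩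
  refine ⟨E, ?_, fun x hxE a σ hσ => ?_⟩
  · rw [hE]
    simp only [dimH_iUnion]
    refine le_antisymm (iSup_le fun a => iSup_le fun l => ?_) bot_le
    refine (dim_excB _ (fun b => ⟨1, fun T T' h1 h2 _ => ?_⟩) (fun ε hε => ?_) l).le
    · exact hmono a b _ _ ((Nat.one_le_floor_iff _).2 h1) (Nat.floor_le_floor h2)
    · obtain ⟨b, Y₀, C, hC, h⟩ := hcount a ε hε
      refine ⟨b, C, max 1 (Y₀ : ℝ), fun T hT => ?_⟩
      have hT1 : 1 ≤ T := (le_max_left _ _).trans hT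
      have hTY : (Y₀ : ℝ) ≤ T := (le_max_right _ _).trans hT
      obtain ⟨h1, h2⟩ := h ⌊T⌋₊ (Nat.le_floor hTY)
      refine ⟨h1, h2.trans ?_⟩
      exact mul_le_mul_of_nonneg_left (Real.rpow_le_rpow (Nat.cast_nonneg _) (Nat.floor_le (by linarith)) hε.le) hC
  · obtain ⟨l, hl⟩ := exists_nat_one_div_lt hσ
    have h1 : x ∉ ExcB (fun b T => B a b ⌊T⌋₊) l := by
      intro h
      apply hxE
      rw [hE]
      simp only [Set.mem_iUnion]
      exact ⟨a, l, h⟩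
    unfold ExcB at h1
    rw [Set.mem_ofPred_eq] at h1
    push Not at h1
    obtain ⟨b, h2⟩ := h1
    refine ⟨b, ?_⟩
    filter_upwards [tendsto_natCast_atTop_atTop.eventually h2, eventually_ge_atTop 1] with Y h3 h4 s hs
    rw [Nat.floor_natCast] at h3
    have h5 : (1 : ℝ) ≤ Y := by exact_mod_cast h4
    obtain ⟨j, h6⟩ := h3 s hs
    exact ⟨j, (Real.rpow_le_rpow_of_exponent_le h5 (by linarith)).trans_lt h6⟩

end Pool.Agent.U265.VH
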