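import Pool.Agent.N84.MD.C

/-!
# Complex points near few bad points, and the number fields in `ℂ` (helper265)
-/

set_option autoImplicit false

namespace Pool.Agent.U265.VH

open Filter Set MeasureTheory
open scoped ENNReal NNReal

/-- real and imaginary parts -/
def ri {X : Type*} (y : X → ℂ) : X × Bool → ℝ := fun q => if q.2 then (y q.1).im else (y q.1).re

theorem ri_anti {X : Type*} [Fintype X] : AntilipschitzWith 2 (ri (X := X)) := by
  refine AntilipschitzWith.of_le_mul_dist fun y y' => ?_
  rw [dist_pi_le_iff (by positivity)]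
  intro i
  have h1 : |(y i).re - (y' i).re| ≤ dist (ri y) (ri y') := by
    have h := dist_le_pi_dist (ri y) (ri y') (i, false)
    rw [Real.dist_eq] at h
    simpa [ri] using h
  have h2 : |(y i).im - (y' i).im| ≤ dist (ri y) (ri y') := by
    have h := dist_le_pi_dist (ri y) (ri y') (i, true)
    rw [Real.dist_eq] at h
    simpa [ri] using h
  rw [dist_eq_norm]
  have h3 := Complex.norm_le_abs_re_add_abs_im (y i - y' i)
  rw [Complex.sub_re, Complex.sub_im] at h3
  have h4 : ((2 : ℝ≥0) : ℝ) = 2 := rfl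
  rw [h4]
  linarith

/-- `Pool.Agent.N84.MD.scales` for complex points -/
theorem scalesC {X : Type*} [Fintype X] {S : Type*} (φ : S → X → ℂ) (Bad E : ℝ → Set S) {s τ : ℝ} (hs : 0 ≤ s)
    (hτ : 0 < τ) (hBad : ∃ T₀ : ℝ, ∀ T T' : ℝ, T₀ ≤ T → T ≤ T' → T' ≤ 2 * T → Bad T ⊆ E T')
    (hE : ∃ C : ℝ, ∀ T : ℝ, 1 ≤ T → (E T).Finite ∧ ((E T).ncard : ℝ) ≤ C * T ^ s) :
    dimH {y : X → ℂ | ¬ ∀ᶠ T : ℝ in atTop, ∀ e ∈ Bad T, ¬ ∀ i, ‖y i - φ e i‖ ≤ T ^ (-τ)} ≤ ENNReal.ofReal (s / τ) := by
  have h1 := Pool.Agent.N84.MD.scales (X := X × Bool) (fun e => ri (φ e)) Bad E hs hτ hBad hE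
  refine (ri_anti.le_dimH_image _).trans ((dimH_mono ?_).trans h1)
  rintro _ ⟨y, hy, rfl⟩ h
  apply hy
  filter_upwards [h] with T hT e he h2
  refine hT e he fun q => ?_
  have h3 := h2 q.1
  unfold ri
  split_ifs
  · have h4 := Complex.abs_im_le_norm (y q.1 - φ e q.1)
    rw [Complex.sub_im] at h4
    exact h4.trans h3
  · have h4 := Complex.abs_re_le_norm (y q.1 - φ e q.1)
    rw [Complex.sub_re] at h4
    exact h4.trans h3

/-- there are countably many number fields in `ℂ` -/
theorem countable_fields : Countable {K : Subfield ℂ // NumberField K} := by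
  have h1 : ∀ K : {K : Subfield ℂ // NumberField K}, ∃ θ : ℂ, IsAlgebraic ℚ θ ∧ K.1 = Subfield.closure {θ} := by
    rintro ⟨K, hK⟩
    obtain ⟨α, hα⟩ := Field.exists_primitive_element ℚ K
    refine ⟨α, ?_, le_antisymm ?_ ?_⟩
    · have h2 : IsAlgebraic ℚ α := Algebra.IsAlgebraic.isAlgebraic α
      exact (h2.algebraMap : IsAlgebraic ℚ (algebraMap K ℂ α))
    · intro x hx
      have h2 : (⟨x, hx⟩ : K) ∈ IntermediateField.adjoin ℚ ({α} : Set K) := by
        rw [hα]
        exact IntermediateField.mem_top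
      have key : ∀ y ∈ IntermediateField.adjoin ℚ ({α} : Set K), (y : ℂ) ∈ Subfield.closure {(α : ℂ)} := by
        intro y hy
        induction hy using IntermediateField.adjoin_induction with
        | mem y hy =>
          rw [Set.mem_singleton_iff] at hy
          rw [hy]
          exact Subfield.subset_closure rfl
        | algebraMap q =>
          have h3 : ((algebraMap ℚ K q : K) : ℂ) = (q : ℂ) := by
            simp
          rw [h3]
          exact SubfieldClass.ratCast_mem _ q
        | add y z _ _ h3 h4 =>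
          push_cast
          exact add_mem h3 h4
        | inv y _ h3 =>
          push_cast
          exact inv_mem h3
        | mul y z _ _ h3 h4 =>
          push_cast
          exact mul_mem h3 h4
      exact key _ h2
    · rw [Subfield.closure_le, Set.singleton_subset_iff]
      exact α.2
  choose θ hθ1 hθ2 using h1
  have h3 : Countable {x : ℂ | IsAlgebraic ℚ x} := (Algebraic.countable ℚ ℂ).to_subtype
  refine Function.Injective.countable (f := fun K => (⟨θ K, hθ1 K⟩ : {x : ℂ | IsAlgebraic ℚ x})) ?_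
  intro K K' h
  have h4 : θ K = θ K' := congrArg Subtype.val h
  apply Subtype.ext
  rw [hθ2 K, hθ2 K', h4]

end Pool.Agent.U265.VH
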