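import Pool.Agent.U265.VH.Law

/-!
# Points of number fields near complex points, outside a set of Hausdorff dimension zero (helper265)
-/

set_option autoImplicit false

namespace Pool.Agent.U265.VH

open Filter Set MeasureTheory
open scoped ENNReal NNReal

section
variable {X : Type} [Fintype X]

/-- the exceptional set for one field, one size and one exponent -/
def ExcB (B : ℕ → ℝ → Set (X → ℂ)) (l : ℕ) : Set (X → ℂ) :=
  {x | ∀ b : ℕ, ¬ ∀ᶠ T : ℝ in atTop, ∀ s ∈ B b T, ¬ ∀ j, ‖x j - s j‖ ≤ T ^ (-(1 / ((l : ℝ) + 1)))}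

theorem dim_excB (B : ℕ → ℝ → Set (X → ℂ))
    (hmono : ∀ b : ℕ, ∃ T₁ : ℝ, ∀ T T' : ℝ, T₁ ≤ T → T ≤ T' → T' ≤ 2 * T → B (b + 1) T ⊆ B b T')
    (hcount : ∀ ε : ℝ, 0 < ε → ∃ (b : ℕ) (C T₀ : ℝ), ∀ T : ℝ, T₀ ≤ T → (B b T).Finite ∧ ((B b T).ncard : ℝ) ≤ C * T ^ ε)
    (l : ℕ) : dimH (ExcB B l) = 0 := by
  classical
  refine le_antisymm ?_ bot_le
  obtain ⟨σ, hσ⟩ : ∃ σ : ℝ, σ = 1 / ((l : ℝ) + 1) := ⟨_, rfl⟩
  have hσ0 : 0 < σ := by rw [hσ]; positivity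
  have key : dimH (ExcB B l) ≤ ENNReal.ofReal 0 := by
    refine Pool.Agent.N84.MD.dim_le_of_forall le_rfl fun D hD => ?_
    obtain ⟨ε, hε⟩ : ∃ ε : ℝ, ε = D * σ := ⟨_, rfl⟩
    have hε0 : 0 < ε := by rw [hε]; positivity
    obtain ⟨b, C, T₀, hC⟩ := hcount ε hε0
    obtain ⟨T₁, hT₁⟩ := hmono b
    have h1 := scalesC (fun (s : X → ℂ) j => s j) (fun T => B (b + 1) T) (fun T => if T₀ ≤ T then B b T else ∅)
      (s := ε) (τ := σ) hε0.le hσ0
      ⟨max T₀ T₁, fun T T' h1 h2 h3 => by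
        rw [if_pos (((le_max_left _ _).trans h1).trans h2)]
        exact hT₁ T T' ((le_max_right _ _).trans h1) h2 h3⟩
      ⟨|C|, fun T hT1 => by
        split_ifs with h
        · refine ⟨(hC T h).1, (hC T h).2.trans ?_⟩
          exact mul_le_mul_of_nonneg_right (le_abs_self C) (Real.rpow_nonneg (by linarith) _)
        · refine ⟨Set.finite_empty, ?_⟩
          rw [Set.ncard_empty, Nat.cast_zero]
          exact mul_nonneg (abs_nonneg _) (Real.rpow_nonneg (by linarith) _)⟩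
    have h2 : ε / σ = D := by rw [hε, mul_div_assoc, div_self hσ0.ne', mul_one]
    rw [h2] at h1
    refine (dimH_mono ?_).trans h1
    intro x hx
    have h3 := hx (b + 1)
    rw [← hσ] at h3
    exact h3
  rwa [ENNReal.ofReal_zero] at key

/-- **One set of dimension zero for all number fields, sizes and exponents**, and a countable family of conditions. -/
theorem abs_law {A : Type*} [Countable A] (B : A → (K : Subfield ℂ) → [NumberField K] → ℕ → ℕ → ℝ → Set (X → K))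
    (hmono : ∀ (a : A) (K : Subfield ℂ) [NumberField K] (k b : ℕ), ∃ T₁ : ℝ, ∀ T T' : ℝ, T₁ ≤ T → T ≤ T' → T' ≤ 2 * T →
      B a K k (b + 1) T ⊆ B a K k b T')
    (hcount : ∀ (a : A) (K : Subfield ℂ) [NumberField K] (k : ℕ) (ε : ℝ), 0 < ε → ∃ (b : ℕ) (C T₀ : ℝ), ∀ T : ℝ, T₀ ≤ T →
      (B a K k b T).Finite ∧ ((B a K k b T).ncard : ℝ) ≤ C * T ^ ε) :
    ∃ E : Set (X → ℂ), dimH E = 0 ∧ ∀ x : X → ℂ, x ∉ E → ∀ (a : A) (K : Subfield ℂ) [NumberField K] (k : ℕ) (σ : ℝ), 0 < σ →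
      ∃ b : ℕ, ∀ᶠ T : ℝ in atTop, ∀ s ∈ B a K k b T, ¬ ∀ j, ‖x j - (s j : ℂ)‖ ≤ T ^ (-σ) := by
  classical
  have hcf := countable_fields
  obtain ⟨φ, hφ⟩ : ∃ φ : (K : Subfield ℂ) → (X → K) → (X → ℂ), φ = fun K s j => (s j : ℂ) := ⟨_, rfl⟩
  obtain ⟨E, hE⟩ : ∃ E : Set (X → ℂ), E = ⋃ (a : A) (K : {K : Subfield ℂ // NumberField K}) (k : ℕ) (l : ℕ),
    (haveI := K.2; ExcB (fun b T => φ K.1 '' B a K.1 k b T) l) := ⟨_, rfl⟩
  refine ⟨E, ?_, fun x hxE a K _ k σ hσ => ?_⟩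
  · rw [hE]
    simp only [dimH_iUnion]
    refine le_antisymm (iSup_le fun a => iSup_le fun K => iSup_le fun k => iSup_le fun l => ?_) bot_le
    have := K.2
    refine (dim_excB _ (fun b => ?_) (fun ε hε => ?_) l).le
    · obtain ⟨T₁, h⟩ := hmono a K.1 k b
      exact ⟨T₁, fun T T' h1 h2 h3 => Set.image_mono (h T T' h1 h2 h3)⟩
    · obtain ⟨b, C, T₀, h⟩ := hcount a K.1 k ε hε
      refine ⟨b, C, T₀, fun T hT => ⟨(h T hT).1.image _, le_trans ?_ (h T hT).2⟩⟩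
      exact_mod_cast Set.ncard_image_le (h T hT).1
  · obtain ⟨l, hl⟩ := exists_nat_one_div_lt hσ
    have h1 : x ∉ ExcB (fun b T => φ K '' B a K k b T) l := by
      intro h
      apply hxE
      rw [hE]
      simp only [Set.mem_iUnion]
      exact ⟨a, ⟨K, inferInstance⟩, k, l, h⟩
    unfold ExcB at h1
    rw [Set.mem_ofPred_eq] at h1
    push Not at h1
    obtain ⟨b, h2⟩ := h1
    refine ⟨b, ?_⟩
    filter_upwards [h2, eventually_ge_atTop (1 : ℝ)] with T h3 h4 s hs h5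
    obtain ⟨j, h6⟩ := h3 (φ K s) (Set.mem_image_of_mem _ hs)
    have h7 : ‖x j - φ K s j‖ ≤ T ^ (-(1 / ((l : ℝ) + 1))) := by
      rw [hφ]
      exact (h5 j).trans (Real.rpow_le_rpow_of_exponent_le h4 (by linarith))
    linarith

/-- the points near `x` are in an inner set -/
theorem inner_near {U : Set (X → ℂ)} (hUo : IsOpen U) {x : X → ℂ} (hx : x ∈ U) (k : ℕ) : ∃ k' : ℕ, k ≤ k' ∧ 0 < k' ∧
    ∀ σ : ℝ, 0 < σ → ∀ᶠ T : ℝ in atTop, ∀ s : X → ℂ, (∀ j, ‖x j - s j‖ ≤ T ^ (-σ)) →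
      ‖s‖ ≤ k' ∧ Metric.ball s (k' : ℝ)⁻¹ ⊆ U := by
  obtain ⟨δ, hδ, hball⟩ := Metric.isOpen_iff.1 hUo x hx
  obtain ⟨n, hn⟩ := exists_nat_ge (max (‖x‖ + 1) (2 / δ))
  have h1 : (n : ℝ) ≤ ((max k n + 1 : ℕ) : ℝ) := by exact_mod_cast (le_max_right k n).trans (Nat.le_succ _)
  have hnx : ‖x‖ + 1 ≤ ((max k n + 1 : ℕ) : ℝ) := ((le_max_left _ _).trans hn).trans h1
  have hkδ : (((max k n + 1 : ℕ) : ℝ))⁻¹ ≤ δ / 2 := by
    have h2 : 2 / δ ≤ ((max k n + 1 : ℕ) : ℝ) := ((le_max_right _ _).trans hn).trans h1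
    rw [inv_le_comm₀ (by positivity) (by positivity)]
    rwa [inv_div]
  refine ⟨max k n + 1, by omega, Nat.succ_pos _, fun σ hσ => ?_⟩
  have h3 := (tendsto_rpow_neg_atTop hσ).eventually (gt_mem_nhds (show 0 < min 1 (δ / 2) by positivity))
  filter_upwards [h3] with T hT s hs
  have h3 : dist x s ≤ min 1 (δ / 2) := by
    rw [dist_pi_le_iff (by positivity)]
    intro j
    rw [dist_eq_norm]
    exact (hs j).trans hT.le
  refine ⟨?_, ?_⟩
  · have h4 : ‖s‖ ≤ ‖x‖ + dist x s := by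
      rw [dist_eq_norm]
      have h5 := norm_sub_norm_le s x
      rw [norm_sub_rev] at h5
      linarith
    have h5 := h3.trans (min_le_left _ _)
    exact (h4.trans (by linarith)).trans hnx
  · intro z hz
    apply hball
    rw [Metric.mem_ball] at hz ⊢
    have h4 : dist z s < δ / 2 := lt_of_lt_of_le hz hkδ
    have h5 := dist_triangle_right z x s
    have h6 := h3.trans (min_le_right _ _)
    linarith

end

end Pool.Agent.U265.VH
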